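import Pool.Agent.H354.BG.Stm

set_option autoImplicit false

/-! SAMEC: equality of points and lines is decidable. -/

namespace Pool.Agent.H935.BG.SAMEC

open Pool.Agent.H482R3.EA (W inv ev PP xx evF cond1 cond2 Syl gOf Sys St Near InD Adm Act)
open Pool.Agent.H482R3.EB (tot wp alt rels AR gR TR Tame Symm alt_length)
open Pool.Agent.H354.BG

theorem comp_pred {α β : Type} [Primcodable α] [Primcodable β] {p : β → Prop}
    (h : ComputablePred p) {f : α → β} (hf : Computable f) : ComputablePred (fun a => p (f a)) := by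
  obtain ⟨d, h1⟩ := h
  exact ⟨fun a => d (f a), h1.comp hf⟩

theorem okL_comp (D : Dat) (U : Finset (Fin D.r)) (b : Fin D.r) :
    ComputablePred (fun p : (Fin D.n × Fin D.n) × (W (Fin D.n) × W (Fin D.n)) =>
      okL D U b p.1.1 p.1.2) := by
  refine comp_pred (p := fun q : Fin D.n × Fin D.n => okL D U b q.1 q.2) ?_ Computable.fst
  exact ⟨fun q => inferInstance, (Primrec.dom_finite _).to_comp⟩

/-- the difference word -/
def xw {n : ℕ} (p : W (Fin n) × W (Fin n)) : W (Fin n) := inv p.1 ++ p.2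

theorem gEl_xw (D : Dat) (p : W (Fin D.n) × W (Fin D.n)) :
    gEl D (xw p) = (gEl D p.1)⁻¹ * gEl D p.2 := by
  unfold xw
  rw [gEl_append, gEl_inv]

theorem same_iff (D : Dat) (U : Finset (Fin D.r)) (b : Fin D.r) (p : W (Fin D.n) × W (Fin D.n)) :
    sameP D U b p.1 p.2 ↔ rho D U (gEl D (inv (flt D (pZ D U b) (xw p)) ++ xw p)) = 1 := by
  unfold sameP
  rw [← gEl_xw, mem_H0', gEl_append, gEl_inv, ← rho_gEl, map_mul, map_inv,
    rho_rho_sub' D (pZ_sub D U b), inv_mul_eq_one]

theorem key (D : Dat) (U P : Finset (Fin D.r)) (hP : P ⊆ U) (w : Fin D.n) (hw : D.β w ∈ U)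
    (x : W (Fin D.n)) :
    rho D U (gEl D (inv (flt D P x) ++ (wp w (-(eg D (D.β w) (gEl D x))) ++ x))) = 1 ↔
      rho D U (gEl D x) = gR D.m w ^ (eg D (D.β w) (gEl D x)) * rho D P (gEl D x) := by
  rw [gEl_append, gEl_append, gEl_inv, ← rho_gEl, gEl_wp, map_mul, map_inv, map_mul,
    rho_rho_sub' D hP, rho_zpow_in D hw, inv_mul_eq_one, zpow_neg, eq_inv_mul_iff_mul_eq]
  exact eq_comm

theorem sameL_iff (D : Dat) (U : Finset (Fin D.r)) (b : Fin D.r) (v w : Fin D.n)
    (h : okL D U b v w) (p : W (Fin D.n) × W (Fin D.n)) :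
    sameL D U b w p.1 p.2 ↔
      rho D U (gEl D (inv (flt D (pZ D (pZ D U b) (D.β w)) (xw p)) ++
        (wp w (-(eg D (D.β w) (gEl D (xw p)))) ++ xw p))) = 1 := by
  have hs : pZ D (pZ D U b) (D.β w) ⊆ U :=
    (pZ_sub D (pZ D U b) (D.β w)).trans (pZ_sub D U b)
  rw [key D U _ hs w h.2.1]
  unfold sameL
  rw [← gEl_xw]
  change rho D U (gEl D (xw p)) ∈ lsub D (pZ D U b) w ↔ _
  rw [mem_lsub, eg_rho, if_pos h.2.1, rho_rho_sub D hs]

theorem onL_iff (D : Dat) (U : Finset (Fin D.r)) (b : Fin D.r) (v w : Fin D.n)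
    (h : okL D U b v w) (p : W (Fin D.n) × W (Fin D.n)) :
    onL D U b w p.1 p.2 ↔
      rho D U (gEl D (inv (flt D (pZ D U b) (xw p)) ++
        (wp w (-(eg D (D.β w) (gEl D (xw p)))) ++ xw p))) = 1 := by
  rw [key D U _ (pZ_sub D U b) w h.2.1]
  unfold onL
  rw [← gEl_xw]
  constructor
  · rintro ⟨i, g, hg, he⟩
    have h1 : eg D (D.β w) (gEl D (xw p)) = i := by
      have h2 := congrArg (eg D (D.β w)) he
      rw [eg_rho, if_pos h.2.1, eg_mul, eg_gR_zpow, eg_par D (w_notMem_Z D U b h) hg,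
        add_zero] at h2
      exact h2
    have h3 : rho D (pZ D U b) (gEl D (xw p)) = g := by
      have h4 := congrArg (rho D (pZ D U b)) he
      rw [rho_rho_sub D (pZ_sub D U b), map_mul, rho_zpow_out D (w_notMem_Z D U b h), one_mul,
        rho_of_par D hg] at h4
      exact h4
    rw [h1, h3, he]
  · intro he
    exact ⟨_, _, rho_mem D _ _, he⟩

end Pool.Agent.H935.BG.SAMEC

namespace Pool.Agent.H935.BG.SAMEC

open Pool.Agent.H482R3.EA (W inv)
open Pool.Agent.H482R3.EB (wp gR)
open Pool.Agent.H354.BG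

theorem app {α β : Type} [Primcodable α] [Primcodable β] {f g : α → List β} (hf : Computable f)
    (hg : Computable g) : Computable (fun a => f a ++ g a) :=
  Computable.list_append.comp hf hg

theorem wpu {D : Dat} {U : Finset (Fin D.r)} (hU : WPU D U) {α : Type} [Primcodable α]
    {f : α → W (Fin D.n)} (hf : Computable f) :
    ComputablePred (fun a => rho D U (gEl D (f a)) = 1) :=
  comp_pred (p := fun u : W (Fin D.n) => rho D U (gEl D u) = 1) hU hf

theorem cand {α : Type} [Primcodable α] {p q : α → Prop} (hp : ComputablePred p)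
    (hq : ComputablePred q) : ComputablePred (fun x => p x ∧ q x) :=
  (Pool.Agent.H482R3.EB.Asm.cp α inferInstance 0).1 p q hp hq

theorem hx (D : Dat) (hinv : Computable (fun u : W (Fin D.n) => inv u)) :
    Computable (fun p : W (Fin D.n) × W (Fin D.n) => xw p) :=
  app (hinv.comp Computable.fst) Computable.snd

theorem part1 (D : Dat) (U : Finset (Fin D.r)) (b : Fin D.r) (hU : WPU D U)
    (hinv : Computable (fun u : W (Fin D.n) => inv u))
    (hflt : ∀ U : Finset (Fin D.r), Computable (fun u : W (Fin D.n) => flt D U u)) :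
    ComputablePred (fun p : W (Fin D.n) × W (Fin D.n) => sameP D U b p.1 p.2) := by
  have h0 := hx D hinv
  have h1 : Computable (fun p : W (Fin D.n) × W (Fin D.n) => flt D (pZ D U b) (xw p)) :=
    (hflt _).comp h0
  have h2 : Computable (fun p : W (Fin D.n) × W (Fin D.n) => inv (flt D (pZ D U b) (xw p))) :=
    hinv.comp h1
  have h3 := wpu hU (app h2 h0)
  exact h3.of_eq fun p => (same_iff D U b p).symm

theorem comp' {α β γ : Type} [Primcodable α] [Primcodable β] [Primcodable γ] {f : β → γ}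
    {g : α → β} {h : α → γ} (hf : Computable f) (hg : Computable g) (e : ∀ a, h a = f (g a)) :
    Computable h := by
  have h1 : h = fun a => f (g a) := funext e
  rw [h1]
  exact hf.comp hg

/-- the triples of the second and third part -/
abbrev TT (D : Dat) : Type := (Fin D.n × Fin D.n) × (W (Fin D.n) × W (Fin D.n))

theorem hw (D : Dat) : Computable (fun p : TT D => p.1.2) := Computable.snd.comp Computable.fst

theorem hx2 (D : Dat) (hinv : Computable (fun u : W (Fin D.n) => inv u)) :
    Computable (fun p : TT D => xw p.2) := (hx D hinv).comp Computable.snd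

theorem hwx (D : Dat) (hinv : Computable (fun u : W (Fin D.n) => inv u)) :
    Computable (fun p : TT D => (p.1.2, xw p.2)) := Computable.pair (hw D) (hx2 D hinv)

theorem tail (D : Dat) (hinv : Computable (fun u : W (Fin D.n) => inv u))
    (hneg : Computable (fun p : Fin D.n × W (Fin D.n) => wp p.1 (-(eg D (D.β p.1) (gEl D p.2))))) :
    Computable (fun p : TT D => wp p.1.2 (-(eg D (D.β p.1.2) (gEl D (xw p.2)))) ++ xw p.2) := by
  have h1 : Computable (fun p : TT D => wp p.1.2 (-(eg D (D.β p.1.2) (gEl D (xw p.2))))) :=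
    comp' hneg (hwx D hinv) fun _ => rfl
  exact app h1 (hx2 D hinv)

theorem part2 (D : Dat) (U : Finset (Fin D.r)) (b : Fin D.r) (hU : WPU D U)
    (hinv : Computable (fun u : W (Fin D.n) => inv u))
    (hneg : Computable (fun p : Fin D.n × W (Fin D.n) => wp p.1 (-(eg D (D.β p.1) (gEl D p.2)))))
    (hflp : ∀ U : Finset (Fin D.r), Computable (fun p : Fin D.n × W (Fin D.n) =>
      flt D (pZ D U (D.β p.1)) p.2)) :
    ComputablePred (fun p : TT D => okL D U b p.1.1 p.1.2 ∧ sameL D U b p.1.2 p.2.1 p.2.2) := by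
  have h1 : Computable (fun p : TT D => flt D (pZ D (pZ D U b) (D.β p.1.2)) (xw p.2)) :=
    comp' (hflp (pZ D U b)) (hwx D hinv) fun _ => rfl
  have h2 : Computable (fun p : TT D => inv (flt D (pZ D (pZ D U b) (D.β p.1.2)) (xw p.2))) :=
    hinv.comp h1
  have h3 := cand (okL_comp D U b) (wpu hU (app h2 (tail D hinv hneg)))
  refine h3.of_eq fun p => ?_
  exact and_congr_right fun h => (sameL_iff D U b p.1.1 p.1.2 h p.2).symm

theorem part3 (D : Dat) (U : Finset (Fin D.r)) (b : Fin D.r) (hU : WPU D U)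
    (hinv : Computable (fun u : W (Fin D.n) => inv u))
    (hflt : ∀ U : Finset (Fin D.r), Computable (fun u : W (Fin D.n) => flt D U u))
    (hneg : Computable (fun p : Fin D.n × W (Fin D.n) =>
      wp p.1 (-(eg D (D.β p.1) (gEl D p.2))))) :
    ComputablePred (fun p : TT D => okL D U b p.1.1 p.1.2 ∧ onL D U b p.1.2 p.2.1 p.2.2) := by
  have h1 : Computable (fun p : TT D => flt D (pZ D U b) (xw p.2)) :=
    (hflt (pZ D U b)).comp (hx2 D hinv)
  have h2 : Computable (fun p : TT D => inv (flt D (pZ D U b) (xw p.2))) := hinv.comp h1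
  have h3 := cand (okL_comp D U b) (wpu hU (app h2 (tail D hinv hneg)))
  refine h3.of_eq fun p => ?_
  exact and_congr_right fun h => (onL_iff D U b p.1.1 p.1.2 h p.2).symm

theorem t_SAMEC (hbas : S_BASX) : S_SAMEC := by
  intro D U b hb hU
  obtain ⟨hinv, hflt, -, -, hneg, hflp, -⟩ := hbas D
  exact ⟨part1 D U b hU hinv hflt, part2 D U b hU hinv hneg hflp, part3 D U b hU hinv hflt hneg⟩

end Pool.Agent.H935.BG.SAMEC
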